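import Pool.Agent.Q209.PS.Even

/-!
# Power product expansion of the partition function: large even index
-/

namespace Pool.Agent.Q209.PS

open Finset

/-- The recursion for the coefficients of even index. -/
def Recur (a : ℕ → ℤ) : Prop :=
  ∀ n : ℕ, 1 ≤ n → ∑ d ∈ n.divisors, (-1) ^ (n / d - 1) * (d : ℤ) * a d ^ (n / d) =
      ∑ d ∈ n.divisors, (d : ℤ) * (1 + (d % 2 : ℕ))

theorem Recur.one {a : ℕ → ℤ} (h : Recur a) : a 1 = 2 := by
  have := h 1 le_rfl
  simpa using this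

theorem Recur.two {a : ℕ → ℤ} (h : Recur a) : a 2 = 4 := by
  have h2 := h 2 (by norm_num)
  have e : Nat.divisors 2 = {1, 2} := by decide
  rw [e, Finset.sum_pair (by norm_num), Finset.sum_pair (by norm_num), h.one] at h2
  norm_num at h2
  linarith

theorem cube_le (i : ℕ) : ((i : ℝ) + 4) ^ 3 * (1 / 2) ^ i ≤ 64 := by
  induction i with
  | zero => norm_num
  | succ i ih =>
    have h1 : ((i : ℝ) + 1 + 4) ^ 3 ≤ 2 * ((i : ℝ) + 4) ^ 3 := by
      have hi : (0 : ℝ) ≤ i := Nat.cast_nonneg i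
      nlinarith [mul_nonneg hi hi, mul_nonneg (mul_nonneg hi hi) hi]
    have h2 : (0 : ℝ) ≤ (1 / 2) ^ i := by positivity
    push_cast
    rw [pow_succ (1 / 2 : ℝ) i]
    calc ((i : ℝ) + 1 + 4) ^ 3 * ((1 / 2) ^ i * (1 / 2))
        = (((i : ℝ) + 1 + 4) ^ 3) * ((1 / 2) ^ i) * (1 / 2) := by ring
      _ ≤ (2 * ((i : ℝ) + 4) ^ 3) * ((1 / 2) ^ i) * (1 / 2) := by gcongr
      _ = ((i : ℝ) + 4) ^ 3 * (1 / 2) ^ i := by ring
      _ ≤ 64 := ih

/-- The majorant of the terms. -/
noncomputable def Z (n j : ℕ) : ℝ :=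
  (if j = 2 then 729 / 2 / (n : ℝ) else 0) + (if j = 3 then 22144 / (n : ℝ) ^ 2 else 0) +
    2125764 / (n : ℝ) ^ 3

theorem term_le (x : ℝ) (d j n : ℕ) (hd : 27 ≤ d) (hj : 2 ≤ j) (hn : n = d * j) (hx0 : 0 ≤ x)
    (hx : 2 * (d : ℝ) * x ≤ 27 * 2 ^ d) : (d : ℝ) * x ^ j ≤ 2 ^ n * Z n j := by
  have hd0 : (0 : ℝ) < d := by
    have : 0 < d := by omega
    exact_mod_cast this
  have hd27 : (27 : ℝ) ≤ d := by exact_mod_cast hd
  have hj0 : (0 : ℝ) < j := by
    have : 0 < j := by omega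
    exact_mod_cast this
  have hn0 : (n : ℝ) = d * j := by exact_mod_cast hn
  have hnpos : (0 : ℝ) < n := by rw [hn0]; positivity
  set y : ℝ := 27 / 2 / d with hy
  have hy0 : 0 ≤ y := by positivity
  have hy2 : y ≤ 1 / 2 := by
    rw [hy, div_le_iff₀ hd0]
    linarith
  have hyj : y = 27 / 2 * j / n := by
    rw [hy, hn0]
    field_simp
  have h1 : x ≤ 2 ^ d * y := by
    rw [hy]
    have : x = (2 * (d : ℝ) * x) / (2 * d) := by field_simp
    rw [this]
    calc (2 * (d : ℝ) * x) / (2 * d) ≤ (27 * 2 ^ d) / (2 * d) := by gcongr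
      _ = 2 ^ d * (27 / 2 / d) := by field_simp
  have h2 : x ^ j ≤ 2 ^ n * y ^ j := by
    calc x ^ j ≤ (2 ^ d * y) ^ j := pow_le_pow_left₀ hx0 h1 j
      _ = 2 ^ n * y ^ j := by rw [mul_pow, ← pow_mul, hn]
  have h3 : (d : ℝ) * x ^ j ≤ 2 ^ n * (d * y ^ j) := by
    calc (d : ℝ) * x ^ j ≤ d * (2 ^ n * y ^ j) := by gcongr
      _ = 2 ^ n * (d * y ^ j) := by ring
  refine h3.trans ?_
  have hdy : (d : ℝ) * y = 27 / 2 := by
    rw [hy]
    field_simp
  have hZ0 : (0 : ℝ) ≤ 2125764 / (n : ℝ) ^ 3 := by positivity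
  have key : (d : ℝ) * y ^ j ≤ Z n j := by
    unfold Z
    rcases Nat.lt_or_ge j 4 with h4 | h4
    · interval_cases j
      · rw [if_pos rfl, if_neg (by norm_num), add_zero]
        have : (d : ℝ) * y ^ 2 = 729 / 2 / n := by
          rw [pow_two, ← mul_assoc, hdy, hyj]
          push_cast
          ring
        rw [this]
        linarith
      · rw [if_neg (by norm_num), if_pos rfl, zero_add]
        have h5 : (d : ℝ) * y ^ 3 = (27 / 2) ^ 3 * 9 / (n : ℝ) ^ 2 := by
          rw [pow_succ, pow_two]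
          have : (d : ℝ) * (y * y * y) = (d * y) * y * y := by ring
          rw [this, hdy, hyj]
          push_cast
          ring
        rw [h5]
        have h6 : (27 / 2 : ℝ) ^ 3 * 9 / (n : ℝ) ^ 2 ≤ 22144 / (n : ℝ) ^ 2 := by
          gcongr
          norm_num
        linarith
    · rw [if_neg (by omega), if_neg (by omega), zero_add, zero_add]
      obtain ⟨i, rfl⟩ : ∃ i, j = i + 4 := ⟨j - 4, by omega⟩
      have h5 : (d : ℝ) * y ^ (i + 4) = (27 / 2) * y ^ 3 * y ^ i := by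
        rw [← hdy]
        ring
      have h6 : y ^ i ≤ (1 / 2) ^ i := pow_le_pow_left₀ hy0 hy2 i
      have h7 : (27 / 2 : ℝ) * y ^ 3 = (27 / 2) ^ 4 / (n : ℝ) ^ 3 * ((i : ℝ) + 4) ^ 3 := by
        rw [hyj]
        push_cast
        ring
      rw [h5]
      calc (27 / 2 : ℝ) * y ^ 3 * y ^ i ≤ (27 / 2) * y ^ 3 * (1 / 2) ^ i := by gcongr
        _ = (27 / 2) ^ 4 / (n : ℝ) ^ 3 * (((i : ℝ) + 4) ^ 3 * (1 / 2) ^ i) := by
            rw [h7]
            ring
        _ ≤ (27 / 2) ^ 4 / (n : ℝ) ^ 3 * 64 := by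
            gcongr
            exact cube_le i
        _ = 2125764 / (n : ℝ) ^ 3 := by
            ring
  gcongr

theorem small_term_le (x : ℝ) (d j n : ℕ) (hd : d < 27) (hn : n = d * j) (hx0 : 0 ≤ x)
    (hx : x * 25 ^ d ≤ 49 ^ d) : (d : ℝ) * x ^ j ≤ 2 ^ n * (27 * (49 / 50) ^ n) := by
  have h1 : x ≤ (49 / 25) ^ d := by
    rw [div_pow, le_div_iff₀ (by positivity)]
    exact hx
  have h2 : x ^ j ≤ (49 / 25) ^ n := by
    calc x ^ j ≤ ((49 / 25 : ℝ) ^ d) ^ j := pow_le_pow_left₀ hx0 h1 j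
      _ = (49 / 25) ^ n := by rw [← pow_mul, hn]
  have hd' : (d : ℝ) ≤ 27 := by exact_mod_cast hd.le
  calc (d : ℝ) * x ^ j ≤ 27 * (49 / 25) ^ n := by gcongr
    _ = 2 ^ n * (27 * (49 / 50) ^ n) := by
        have : (49 / 25 : ℝ) ^ n = 2 ^ n * (49 / 50) ^ n := by
          rw [← mul_pow]
          norm_num
        rw [this]
        ring

theorem sum_Z_le (n : ℕ) (hn : 700 < n) : ∑ j ∈ Icc 2 (n / 27), Z n j ≤ 73 / 100 := by
  have hn0 : (700 : ℝ) < n := by exact_mod_cast hn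
  have hnpos : (0 : ℝ) < n := by linarith
  have h2 : 2 ∈ Icc 2 (n / 27) := by
    rw [mem_Icc]
    omega
  have h3 : 3 ∈ Icc 2 (n / 27) := by
    rw [mem_Icc]
    omega
  unfold Z
  rw [Finset.sum_add_distrib, Finset.sum_add_distrib, Finset.sum_ite_eq', Finset.sum_ite_eq',
    if_pos h2, if_pos h3, Finset.sum_const, nsmul_eq_mul, Nat.card_Icc]
  have h4 : ((n / 27 + 1 - 2 : ℕ) : ℝ) ≤ n / 27 := by
    have h5 : ((n / 27 + 1 - 2 : ℕ) : ℝ) ≤ ((n / 27 : ℕ) : ℝ) := by
      exact_mod_cast (by omega : n / 27 + 1 - 2 ≤ n / 27)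
    exact h5.trans Nat.cast_div_le
  have h5 : ((n / 27 + 1 - 2 : ℕ) : ℝ) * (2125764 / (n : ℝ) ^ 3) ≤ 78732 / (n : ℝ) ^ 2 := by
    calc ((n / 27 + 1 - 2 : ℕ) : ℝ) * (2125764 / (n : ℝ) ^ 3)
        ≤ (n / 27) * (2125764 / (n : ℝ) ^ 3) := by gcongr
      _ = 78732 / (n : ℝ) ^ 2 := by
          field_simp
          norm_num
  have h6 : (729 / 2 / (n : ℝ)) ≤ 729 / 2 / 700 := by gcongr
  have h7 : 22144 / (n : ℝ) ^ 2 ≤ 22144 / 700 ^ 2 := by gcongr
  have h8 : 78732 / (n : ℝ) ^ 2 ≤ 78732 / 700 ^ 2 := by gcongr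
  norm_num at h6 h7 h8 ⊢
  linarith

theorem two_hundred_sq (n : ℕ) (hn : 20 ≤ n) : 200 * n ^ 2 ≤ 2 ^ n := by
  induction n, hn using Nat.le_induction with
  | base => norm_num
  | succ n hn ih =>
    rw [pow_succ 2 n]
    nlinarith

theorem pow_49_50 (n : ℕ) (hn : 700 ≤ n) : (49 / 50 : ℝ) ^ n ≤ 1 / 729000 := by
  calc (49 / 50 : ℝ) ^ n ≤ (49 / 50) ^ 700 := pow_le_pow_of_le_one (by norm_num) (by norm_num) hn
    _ = ((49 / 50 : ℝ) ^ 35) ^ 20 := by rw [← pow_mul]
    _ ≤ (1 / 2) ^ 20 := pow_le_pow_left₀ (by positivity) (by norm_num) 20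
    _ ≤ 1 / 729000 := by norm_num

/-- The constant in front of `2^n`. -/
def cst (n : ℕ) : ℝ := if 4 ∣ n then 3 else -1

theorem main_term (a : ℕ → ℤ) (h : Recur a) (n : ℕ) (hn : 700 < n) :
    ∑ d ∈ n.properDivisors.filter (fun d => d < 3),
      (-1 : ℝ) ^ (n / d - 1) * (d : ℝ) * (a d : ℝ) ^ (n / d) = -cst n * 2 ^ n := by
  have h1 := h.one
  have h2 := h.two
  by_cases he : 2 ∣ n
  · have e : n.properDivisors.filter (fun d => d < 3) = {1, 2} := by
      ext d
      rw [mem_filter, Nat.mem_properDivisors, mem_insert, mem_singleton]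
      constructor
      · rintro ⟨⟨h3, h4⟩, h5⟩
        have := Nat.pos_of_dvd_of_pos h3 (by omega)
        omega
      · rintro (rfl | rfl)
        · exact ⟨⟨one_dvd _, by omega⟩, by norm_num⟩
        · exact ⟨⟨he, by omega⟩, by norm_num⟩
    rw [e, Finset.sum_pair (by norm_num), h1, h2]
    obtain ⟨m, rfl⟩ := he
    have e1 : 2 * m / 2 = m := by omega
    rw [e1, Nat.div_one]
    have o1 : Odd (2 * m - 1) := ⟨m - 1, by omega⟩
    rw [o1.neg_one_pow]
    have e2 : ((4 : ℤ) : ℝ) ^ m = 2 ^ (2 * m) := by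
      rw [pow_mul]
      norm_num
    rw [e2]
    unfold cst
    split_ifs with h4
    · have hm : Even m := by
        obtain ⟨k, hk⟩ := h4
        exact ⟨k, by omega⟩
      have o2 : Odd (m - 1) := by
        obtain ⟨k, hk⟩ := hm
        exact ⟨k - 1, by omega⟩
      rw [o2.neg_one_pow]
      push_cast
      ring
    · have o2 : Even (m - 1) := by
        rcases Nat.even_or_odd m with ⟨k, hk⟩ | ⟨k, hk⟩
        · exact absurd ⟨k, by omega⟩ h4
        · exact ⟨k, by omega⟩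
      rw [o2.neg_one_pow]
      push_cast
      ring
  · have e : n.properDivisors.filter (fun d => d < 3) = {1} := by
      ext d
      rw [mem_filter, Nat.mem_properDivisors, mem_singleton]
      constructor
      · rintro ⟨⟨h3, h4⟩, h5⟩
        have := Nat.pos_of_dvd_of_pos h3 (by omega)
        have h6 : d ≠ 2 := by
          rintro rfl
          exact he h3
        omega
      · rintro rfl
        exact ⟨⟨one_dvd _, by omega⟩, by norm_num⟩
    rw [e, Finset.sum_singleton, h1, Nat.div_one]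
    have o1 : Even (n - 1) := by
      rcases Nat.even_or_odd n with ⟨k, hk⟩ | ⟨k, hk⟩
      · exact absurd ⟨k, by omega⟩ he
      · exact ⟨k, by omega⟩
    rw [o1.neg_one_pow]
    unfold cst
    rw [if_neg]
    · push_cast
      ring
    · intro h4
      exact he (dvd_trans (by norm_num) h4)

theorem big (a : ℕ → ℤ) (h : Recur a) (n : ℕ) (hn : 700 < n)
    (hs : ∀ d, 3 ≤ d → d < 27 → (a d).natAbs * 25 ^ d ≤ 49 ^ d)
    (hb : ∀ d, 1 ≤ d → d < n → 2 * d * (a d).natAbs ≤ 27 * 2 ^ d) :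
    |(n : ℝ) * (a n : ℝ) - cst n * 2 ^ n| ≤ 3 / 4 * 2 ^ n := by
  have hr := h n (by omega)
  rw [← Nat.cons_self_properDivisors (n := n) (by omega), Finset.sum_cons,
    Nat.div_self (by omega), pow_one, Nat.sub_self, pow_zero, one_mul,
    Nat.cons_self_properDivisors (n := n) (by omega)] at hr
  have hr' : (n : ℝ) * (a n : ℝ) + ∑ d ∈ n.properDivisors,
      (-1 : ℝ) ^ (n / d - 1) * (d : ℝ) * (a d : ℝ) ^ (n / d) =
      ∑ d ∈ n.divisors, (d : ℝ) * (1 + ((d % 2 : ℕ) : ℝ)) := by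
    have h0 := congrArg (Int.cast : ℤ → ℝ) hr
    simpa only [Int.cast_add, Int.cast_mul, Int.cast_sum, Int.cast_pow, Int.cast_neg,
      Int.cast_one, Int.cast_natCast] using h0
  rw [← Finset.sum_filter_add_sum_filter_not n.properDivisors (fun d => d < 3),
    main_term a h n hn] at hr'
  have hn0 : (700 : ℝ) < n := by exact_mod_cast hn
  -- the divisor sum
  have hA0 : 0 ≤ ∑ d ∈ n.divisors, (d : ℝ) * (1 + ((d % 2 : ℕ) : ℝ)) :=
    Finset.sum_nonneg fun d _ => by positivity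
  have hA : ∑ d ∈ n.divisors, (d : ℝ) * (1 + ((d % 2 : ℕ) : ℝ)) ≤ 1 / 100 * 2 ^ n := by
    have h1 : ∑ d ∈ n.divisors, (d : ℝ) * (1 + ((d % 2 : ℕ) : ℝ)) ≤
        ∑ d ∈ n.divisors, (n : ℝ) * 2 := by
      refine Finset.sum_le_sum fun d hd => ?_
      have h2 : (d : ℝ) ≤ n := by exact_mod_cast Nat.divisor_le hd
      have h3 : ((d % 2 : ℕ) : ℝ) ≤ 1 := by
        exact_mod_cast (by omega : d % 2 ≤ 1)
      have h4 : (0 : ℝ) ≤ ((d % 2 : ℕ) : ℝ) := Nat.cast_nonneg _
      nlinarith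
    rw [Finset.sum_const, nsmul_eq_mul] at h1
    have h2 : (n.divisors.card : ℝ) ≤ n := by exact_mod_cast Nat.card_divisors_le_self n
    have h3 : (200 : ℝ) * (n : ℝ) ^ 2 ≤ 2 ^ n := by
      exact_mod_cast two_hundred_sq n (by omega)
    nlinarith
  -- the other terms
  have hB : |∑ d ∈ n.properDivisors.filter (fun d => ¬ d < 3),
      (-1 : ℝ) ^ (n / d - 1) * (d : ℝ) * (a d : ℝ) ^ (n / d)| ≤ 731 / 1000 * 2 ^ n := by
    refine (Finset.abs_sum_le_sum_abs _ _).trans ?_
    have habs : ∀ d : ℕ, |(-1 : ℝ) ^ (n / d - 1) * (d : ℝ) * (a d : ℝ) ^ (n / d)| =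
        (d : ℝ) * ((a d).natAbs : ℝ) ^ (n / d) := by
      intro d
      rw [abs_mul, abs_mul, abs_pow, abs_neg, abs_one, one_pow, one_mul, Nat.abs_cast, abs_pow,
        Nat.cast_natAbs, Int.cast_abs]
    rw [Finset.sum_congr rfl fun d _ => habs d,
      ← Finset.sum_filter_add_sum_filter_not _ (fun d => d < 27)]
    have hsm : ∑ d ∈ (n.properDivisors.filter (fun d => ¬ d < 3)).filter (fun d => d < 27),
        (d : ℝ) * ((a d).natAbs : ℝ) ^ (n / d) ≤ 1 / 1000 * 2 ^ n := by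
      have h1 : ∀ d ∈ (n.properDivisors.filter (fun d => ¬ d < 3)).filter (fun d => d < 27),
          (d : ℝ) * ((a d).natAbs : ℝ) ^ (n / d) ≤ 2 ^ n * (27 * (49 / 50) ^ n) := by
        intro d hd
        rw [mem_filter, mem_filter, Nat.mem_properDivisors] at hd
        obtain ⟨⟨⟨hd1, hd2⟩, hd3⟩, hd4⟩ := hd
        refine small_term_le _ d (n / d) n hd4 (Nat.mul_div_cancel' hd1).symm (by positivity) ?_
        exact_mod_cast hs d (by omega) hd4
      refine (Finset.sum_le_card_nsmul _ _ _ h1).trans ?_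
      rw [nsmul_eq_mul]
      have h2 : (((n.properDivisors.filter (fun d => ¬ d < 3)).filter
          (fun d => d < 27)).card : ℝ) ≤ 27 := by
        have h3 : ((n.properDivisors.filter (fun d => ¬ d < 3)).filter (fun d => d < 27)).card ≤
            (range 27).card := by
          refine Finset.card_le_card fun d hd => ?_
          rw [mem_filter] at hd
          exact mem_range.2 hd.2
        rw [card_range] at h3
        exact_mod_cast h3
      have h3 := pow_49_50 n (by omega)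
      have h4 : (0 : ℝ) < 2 ^ n := by positivity
      have h5 : (0 : ℝ) ≤ (49 / 50) ^ n := by positivity
      calc (((n.properDivisors.filter (fun d => ¬ d < 3)).filter
          (fun d => d < 27)).card : ℝ) * (2 ^ n * (27 * (49 / 50) ^ n))
          ≤ 27 * (2 ^ n * (27 * (1 / 729000))) := by gcongr
        _ = 1 / 1000 * 2 ^ n := by ring
    have hlg : ∑ d ∈ (n.properDivisors.filter (fun d => ¬ d < 3)).filter (fun d => ¬ d < 27),
        (d : ℝ) * ((a d).natAbs : ℝ) ^ (n / d) ≤ 73 / 100 * 2 ^ n := by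
      have h1 : ∀ d ∈ (n.properDivisors.filter (fun d => ¬ d < 3)).filter (fun d => ¬ d < 27),
          (d : ℝ) * ((a d).natAbs : ℝ) ^ (n / d) ≤ 2 ^ n * Z n (n / d) := by
        intro d hd
        rw [mem_filter, mem_filter, Nat.mem_properDivisors] at hd
        obtain ⟨⟨⟨hd1, hd2⟩, hd3⟩, hd4⟩ := hd
        have hq : 2 ≤ n / d := by
          obtain ⟨q, rfl⟩ := hd1
          rw [Nat.mul_div_cancel_left _ (by omega)]
          by_contra hc
          have : q ≤ 1 := by omega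
          have : d * q ≤ d * 1 := Nat.mul_le_mul_left _ this
          omega
        refine term_le _ d (n / d) n (by omega) hq (Nat.mul_div_cancel' hd1).symm
          (by positivity) ?_
        exact_mod_cast hb d (by omega) hd2
      refine (Finset.sum_le_sum h1).trans ?_
      rw [← Finset.mul_sum]
      have h2 : ∑ d ∈ (n.properDivisors.filter (fun d => ¬ d < 3)).filter (fun d => ¬ d < 27),
          Z n (n / d) = ∑ j ∈ ((n.properDivisors.filter (fun d => ¬ d < 3)).filter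
          (fun d => ¬ d < 27)).image (fun d => n / d), Z n j := by
        rw [Finset.sum_image]
        intro d hd d' hd' hdd
        rw [mem_coe, mem_filter, mem_filter, Nat.mem_properDivisors] at hd hd'
        have h3 := Nat.div_div_self hd.1.1.1 (by omega)
        have h4 := Nat.div_div_self hd'.1.1.1 (by omega)
        rw [← h3, ← h4]
        exact congrArg (fun q => n / q) hdd
      have h3 : ((n.properDivisors.filter (fun d => ¬ d < 3)).filter
          (fun d => ¬ d < 27)).image (fun d => n / d) ⊆ Icc 2 (n / 27) := by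
        intro j hj
        rw [mem_image] at hj
        obtain ⟨d, hd, rfl⟩ := hj
        rw [mem_filter, mem_filter, Nat.mem_properDivisors] at hd
        obtain ⟨⟨⟨hd1, hd2⟩, hd3⟩, hd4⟩ := hd
        rw [mem_Icc]
        constructor
        · obtain ⟨q, rfl⟩ := hd1
          rw [Nat.mul_div_cancel_left _ (by omega)]
          by_contra hc
          have : q ≤ 1 := by omega
          have : d * q ≤ d * 1 := Nat.mul_le_mul_left _ this
          omega
        · exact Nat.div_le_div_left (by omega) (by norm_num)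
      have hZ0 : ∀ j, 0 ≤ Z n j := by
        intro j
        unfold Z
        split_ifs <;> positivity
      have h4 : ∑ d ∈ (n.properDivisors.filter (fun d => ¬ d < 3)).filter (fun d => ¬ d < 27),
          Z n (n / d) ≤ 73 / 100 := by
        rw [h2]
        exact (Finset.sum_le_sum_of_subset_of_nonneg h3 fun j _ _ => hZ0 j).trans (sum_Z_le n hn)
      calc (2 : ℝ) ^ n * ∑ d ∈ (n.properDivisors.filter (fun d => ¬ d < 3)).filter
            (fun d => ¬ d < 27), Z n (n / d) ≤ 2 ^ n * (73 / 100) := by gcongr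
        _ = 73 / 100 * 2 ^ n := by ring
    have e : (731 / 1000 : ℝ) * 2 ^ n = 1 / 1000 * 2 ^ n + 73 / 100 * 2 ^ n := by ring
    rw [e]
    exact add_le_add hsm hlg
  have h4 : (0 : ℝ) < 2 ^ n := by positivity
  rw [abs_le] at hB ⊢
  constructor <;> nlinarith [hB.1, hB.2]

end Pool.Agent.Q209.PS
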