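import Pool.Agent.Q209.PS.Table

namespace Pool.Agent.Q209.PS

/-- The sign of `a_d`: `true` for `≥ 0`. -/
def sg (d : ℕ) : Bool := Nat.ble d 2 || Nat.beq (d % 4) 0

def posS (n : ℕ) : ℕ → List ℕ → ℕ
  | 0, _ => 0
  | _ + 1, [] => 0
  | d + 1, b :: l =>
    cond (Nat.beq (n % (d + 1)) 0)
      ((d + 1) * (1 + (d + 1) % 2) +
        cond (sg (d + 1) && Nat.beq ((n / (d + 1)) % 2) 1) 0 ((d + 1) * b ^ (n / (d + 1))) +
        posS n d l)
      (posS n d l)

def negS (n : ℕ) : ℕ → List ℕ → ℕ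
  | 0, _ => 0
  | _ + 1, [] => 0
  | d + 1, b :: l =>
    cond (Nat.beq (n % (d + 1)) 0)
      (cond (sg (d + 1) && Nat.beq ((n / (d + 1)) % 2) 1) ((d + 1) * b ^ (n / (d + 1))) 0 +
        negS n d l)
      (negS n d l)

/-- The recursion, the bound and the strictness of the signs. -/
def chk : ℕ → List ℕ → Bool
  | 0, [] => true
  | 0, _ :: _ => false
  | _ + 1, [] => false
  | n + 1, b :: l =>
    (cond (sg (n + 1))
      (Nat.beq ((n + 1) * b + negS (n + 1) n l) ((n + 1) * (1 + (n + 1) % 2) + posS (n + 1) n l))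
      (Nat.beq (negS (n + 1) n l) ((n + 1) * (1 + (n + 1) % 2) + posS (n + 1) n l + (n + 1) * b)) &&
    Nat.ble (2 * (n + 1) * b) (27 * 2 ^ (n + 1)) &&
    (Nat.ble (n + 1) 3 || Nat.ble 1 b) &&
    (Nat.ble (n + 1) 2 || Nat.ble 27 (n + 1) || Nat.ble (b * 25 ^ (n + 1)) (49 ^ (n + 1)))) &&
    chk n l

theorem chk_tab : chk 700 tab = true := by decide +kernel

end Pool.Agent.Q209.PS
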