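import Pool.Agent.Q209.PS.Rec
import Pool.Agent.Q209.PS.Check

/-!
# Power product expansion of the partition function: the coefficients of even index
-/

namespace Pool.Agent.Q209.PS

open Finset

theorem IsExpansion.odd_one {N : ℕ → ℤ} (h : IsExpansion N) (m : ℕ) (hm : Odd m) : N m = 1 := by
  induction m using Nat.strong_induction_on with
  | _ m ih =>
    have hm1 : 1 ≤ m := hm.pos
    have h1 := h.rec m hm1
    have h2 : ∀ k ∈ m.divisors, (-1 : ℤ) ^ (m / k - 1) * (k : ℤ) * N k ^ (m / k) =
        (k : ℤ) * N k ^ (m / k) := by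
      intro k hk
      have hd := Nat.dvd_of_mem_divisors hk
      have ho : Odd (m / k) := by
        obtain ⟨j, rfl⟩ := hd
        rw [Nat.mul_div_cancel_left _ (Nat.pos_of_mem_divisors hk)]
        exact (Nat.odd_mul.1 hm).2
      have he : Even (m / k - 1) := Nat.Odd.sub_odd ho _root_.odd_one
      rw [he.neg_one_pow, one_mul]
    rw [Finset.sum_congr rfl h2, ← Nat.cons_self_properDivisors (by omega), Finset.sum_cons,
      Finset.sum_cons, Nat.div_self hm1, pow_one] at h1
    have h3 : ∀ k ∈ m.properDivisors, (k : ℤ) * N k ^ (m / k) = (k : ℤ) := by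
      intro k hk
      rw [Nat.mem_properDivisors] at hk
      have ho : Odd k := Odd.of_dvd_nat hm hk.1
      rw [ih k hk.2 ho, one_pow, mul_one]
    rw [Finset.sum_congr rfl h3] at h1
    have h4 : (m : ℤ) * N m = m := by linarith
    have h5 : (m : ℤ) ≠ 0 := by positivity
    have h6 : (m : ℤ) * N m = m * 1 := by rw [h4, mul_one]
    exact mul_left_cancel₀ h5 h6

theorem sum_divisors_two_mul (f : ℕ → ℤ) (n : ℕ) (hn : 1 ≤ n) :
    ∑ k ∈ (2 * n).divisors, f k =
      ∑ d ∈ n.divisors, f (2 * d) + ∑ d ∈ n.divisors.filter (fun d => Odd d), f d := by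
  have h1 : (2 * n).divisors = (n.divisors.image fun d => 2 * d) ∪
      n.divisors.filter (fun d => Odd d) := by
    ext k
    rw [mem_union, mem_image, mem_filter, Nat.mem_divisors]
    constructor
    · rintro ⟨hk, -⟩
      rcases Nat.even_or_odd' k with ⟨c, rfl | rfl⟩
      · left
        exact ⟨c, Nat.mem_divisors.2 ⟨Nat.dvd_of_mul_dvd_mul_left two_pos hk, by omega⟩, rfl⟩
      · right
        have hc : Nat.Coprime (2 * c + 1) 2 := by
          rw [Nat.coprime_two_right]
          exact ⟨c, rfl⟩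
        exact ⟨Nat.mem_divisors.2 ⟨hc.dvd_of_dvd_mul_left hk, by omega⟩, ⟨c, rfl⟩⟩
    · rintro (⟨d, hd, rfl⟩ | ⟨hd, ho⟩)
      · exact ⟨Nat.mul_dvd_mul_left 2 (Nat.dvd_of_mem_divisors hd), by omega⟩
      · exact ⟨(Nat.dvd_of_mem_divisors hd).mul_left 2, by omega⟩
  rw [h1, Finset.sum_union, Finset.sum_image]
  · intro a _ b _ hab
    simpa using hab
  · rw [Finset.disjoint_left]
    intro k hk hk'
    rw [mem_image] at hk
    rw [mem_filter] at hk'
    obtain ⟨d, -, rfl⟩ := hk
    have := hk'.2
    rw [← Nat.not_even_iff_odd] at this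
    exact this (even_two_mul d)

/-- The divisor recursion for the coefficients of even index. -/
theorem IsExpansion.even_rec {N : ℕ → ℤ} (h : IsExpansion N) (n : ℕ) (hn : 1 ≤ n) :
    ∑ d ∈ n.divisors, (-1) ^ (n / d - 1) * (d : ℤ) * N (2 * d) ^ (n / d) =
      ∑ d ∈ n.divisors, (d : ℤ) * (1 + (d % 2 : ℕ)) := by
  have h1 := h.rec (2 * n) (by omega)
  rw [sum_divisors_two_mul _ n hn, sum_divisors_two_mul _ n hn] at h1
  have h2 : ∀ d ∈ n.divisors, (-1 : ℤ) ^ (2 * n / (2 * d) - 1) * ((2 * d : ℕ) : ℤ) *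
      N (2 * d) ^ (2 * n / (2 * d)) =
      2 * ((-1) ^ (n / d - 1) * (d : ℤ) * N (2 * d) ^ (n / d)) := by
    intro d _
    rw [Nat.mul_div_mul_left _ _ two_pos]
    push_cast
    ring
  have h3 : ∀ d ∈ n.divisors.filter (fun d => Odd d), (-1 : ℤ) ^ (2 * n / d - 1) * (d : ℤ) *
      N d ^ (2 * n / d) = -(d : ℤ) := by
    intro d hd
    rw [mem_filter] at hd
    have hd1 := Nat.dvd_of_mem_divisors hd.1
    have hd0 := Nat.pos_of_mem_divisors hd.1
    rw [h.odd_one d hd.2, one_pow, mul_one]
    have h4 : 2 * n / d = 2 * (n / d) := Nat.mul_div_assoc 2 hd1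
    have h5 : 1 ≤ n / d := Nat.div_pos (Nat.divisor_le hd.1) hd0
    have h6 : Odd (2 * n / d - 1) := by
      rw [h4]
      exact ⟨n / d - 1, by omega⟩
    rw [h6.neg_one_pow]
    ring
  rw [Finset.sum_congr rfl h2, Finset.sum_congr rfl h3, ← Finset.mul_sum,
    Finset.sum_neg_distrib] at h1
  have h7 : ∑ d ∈ n.divisors, (d : ℤ) * (1 + (d % 2 : ℕ)) =
      ∑ d ∈ n.divisors, (d : ℤ) + ∑ d ∈ n.divisors.filter (fun d => Odd d), (d : ℤ) := by
    rw [Finset.sum_filter, ← Finset.sum_add_distrib]
    refine Finset.sum_congr rfl fun d _ => ?_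
    split_ifs with ho
    · rw [Nat.odd_iff.1 ho]
      push_cast
      ring
    · rw [Nat.not_odd_iff.1 ho]
      push_cast
      ring
  have h8 : ∑ d ∈ n.divisors, ((2 * d : ℕ) : ℤ) = 2 * ∑ d ∈ n.divisors, (d : ℤ) := by
    rw [Finset.mul_sum]
    refine Finset.sum_congr rfl fun d _ => ?_
    push_cast
    ring
  rw [h8] at h1
  rw [h7]
  linarith

/-! ### The table -/

/-- The signed value. -/
def val (d b : ℕ) : ℤ := if sg d = true then (b : ℤ) else -(b : ℤ)

/-- `l` lists the absolute values of `a n, ..., a 1`. -/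
def Rep (a : ℕ → ℤ) : ℕ → List ℕ → Prop
  | 0, _ => True
  | _ + 1, [] => False
  | n + 1, b :: l => a (n + 1) = val (n + 1) b ∧ Rep a n l

theorem beq_iff (x y : ℕ) : Nat.beq x y = true ↔ x = y :=
  ⟨Nat.eq_of_beq_eq_true, fun h => by rw [h]; exact Nat.beq_refl y⟩

theorem sums_eq (a : ℕ → ℤ) (n : ℕ) (hn : 1 ≤ n) (d : ℕ) (l : List ℕ) (h : Rep a d l) :
    (posS n d l : ℤ) - (negS n d l : ℤ) = ∑ i ∈ Icc 1 d, (if i ∣ n then
      ((i : ℤ) * (1 + (i % 2 : ℕ)) - (-1) ^ (n / i - 1) * (i : ℤ) * a i ^ (n / i)) else 0) := by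
  induction d generalizing l with
  | zero => simp [posS, negS]
  | succ d ih =>
    cases l with
    | nil => exact h.elim
    | cons b l =>
      obtain ⟨h1, h2⟩ := h
      rw [Finset.sum_Icc_succ_top (by omega), ← ih l h2, posS, negS, h1]
      by_cases hd : (d + 1) ∣ n
      · have hb : Nat.beq (n % (d + 1)) 0 = true := by
          rw [beq_iff]
          exact Nat.mod_eq_zero_of_dvd hd
        have hq : 1 ≤ n / (d + 1) := Nat.div_pos (Nat.le_of_dvd hn hd) (by omega)
        obtain ⟨q, hq'⟩ : ∃ q, n / (d + 1) = q + 1 := ⟨n / (d + 1) - 1, by omega⟩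
        rw [hb, if_pos hd, hq', Nat.add_sub_cancel]
        unfold val
        cases hs : sg (d + 1) with
        | false =>
          simp only [cond_true, Bool.false_and, cond_false, Bool.false_eq_true, if_false]
          have e : (-1 : ℤ) ^ q * (-(b : ℤ)) ^ (q + 1) = -(b : ℤ) ^ (q + 1) := by
            rw [neg_pow (b : ℤ) (q + 1), pow_succ (-1 : ℤ) q]
            have : ((-1 : ℤ) ^ q) * (-1) ^ q = 1 := by
              rw [← mul_pow]
              norm_num
            linear_combination (-(b : ℤ) ^ (q + 1)) * this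
          push_cast
          linear_combination (((d : ℤ) + 1)) * e
        | true =>
          simp only [cond_true, Bool.true_and, if_true]
          rcases Nat.even_or_odd q with he | ho
          · have hb2 : Nat.beq ((q + 1) % 2) 1 = true := by
              rw [beq_iff, ← Nat.odd_iff]
              exact he.add_one
            rw [hb2, he.neg_one_pow]
            simp only [cond_true]
            push_cast
            ring
          · have hb2 : Nat.beq ((q + 1) % 2) 1 = false := by
              rw [← Bool.not_eq_true, beq_iff, ← Nat.odd_iff, Nat.not_odd_iff_even]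
              exact ho.add_one
            rw [hb2, ho.neg_one_pow]
            simp only [cond_false]
            push_cast
            ring
      · have hb : Nat.beq (n % (d + 1)) 0 = false := by
          rw [← Bool.not_eq_true, beq_iff]
          intro h0
          exact hd (Nat.dvd_of_mod_eq_zero h0)
        rw [hb, if_neg hd]
        simp only [cond_false]
        ring

theorem sum_Icc_dvd (f : ℕ → ℤ) (n : ℕ) (hn : 1 ≤ n) :
    ∑ i ∈ Icc 1 (n - 1), (if i ∣ n then f i else 0) = ∑ i ∈ n.properDivisors, f i := by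
  rw [← Finset.sum_filter]
  refine Finset.sum_congr ?_ fun _ _ => rfl
  ext k
  rw [mem_filter, mem_Icc, Nat.mem_properDivisors]
  constructor
  · rintro ⟨h1, h2⟩
    exact ⟨h2, by omega⟩
  · rintro ⟨h1, h2⟩
    exact ⟨⟨Nat.pos_of_dvd_of_pos h1 hn, by omega⟩, h1⟩

/-- What the table says about `a n`. -/
def Fact (a : ℕ → ℤ) (n : ℕ) : Prop :=
  (sg n = true → 0 ≤ a n) ∧ (sg n = false → a n ≤ 0) ∧ (4 ≤ n → a n ≠ 0) ∧
    2 * n * (a n).natAbs ≤ 27 * 2 ^ n ∧ (3 ≤ n → n < 27 → (a n).natAbs * 25 ^ n ≤ 49 ^ n)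

theorem chk_spec (a : ℕ → ℤ)
    (ha : ∀ n : ℕ, 1 ≤ n → ∑ d ∈ n.divisors, (-1) ^ (n / d - 1) * (d : ℤ) * a d ^ (n / d) =
      ∑ d ∈ n.divisors, (d : ℤ) * (1 + (d % 2 : ℕ))) (n : ℕ) (l : List ℕ)
    (h : chk n l = true) : Rep a n l ∧ ∀ k, 1 ≤ k → k ≤ n → Fact a k := by
  induction n generalizing l with
  | zero => exact ⟨trivial, fun k h1 h2 => by omega⟩
  | succ n ih =>
    cases l with
    | nil => simp [chk] at h
    | cons b l =>
      rw [chk, Bool.and_eq_true, Bool.and_eq_true, Bool.and_eq_true, Bool.and_eq_true] at h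
      obtain ⟨⟨⟨⟨h1, h2⟩, h3⟩, h4⟩, h5⟩ := h
      obtain ⟨r, hf⟩ := ih l h5
      have hs := sums_eq a (n + 1) (by omega) n l r
      have hs2 := sum_Icc_dvd (fun i => ((i : ℤ) * (1 + (i % 2 : ℕ)) -
        (-1) ^ ((n + 1) / i - 1) * (i : ℤ) * a i ^ ((n + 1) / i))) (n + 1) (by omega)
      rw [Nat.add_sub_cancel] at hs2
      rw [hs2, Finset.sum_sub_distrib] at hs
      have hr := ha (n + 1) (by omega)
      rw [← Nat.cons_self_properDivisors (by omega), Finset.sum_cons, Finset.sum_cons,
        Nat.div_self (by omega), pow_one, Nat.sub_self, pow_zero, one_mul] at hr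
      have hkey : ((n + 1 : ℕ) : ℤ) * a (n + 1) = ((n + 1 : ℕ) : ℤ) * (1 + ((n + 1) % 2 : ℕ)) +
          ((posS (n + 1) n l : ℤ) - (negS (n + 1) n l : ℤ)) := by
        rw [hs]
        linarith
      have hne : ((n + 1 : ℕ) : ℤ) ≠ 0 := by positivity
      have hval : a (n + 1) = val (n + 1) b := by
        refine mul_left_cancel₀ hne ?_
        rw [hkey]
        unfold val
        cases hsg : sg (n + 1) with
        | false =>
          rw [hsg, cond_false, beq_iff] at h1
          have h1' : (negS (n + 1) n l : ℤ) = ((n + 1 : ℕ) : ℤ) * (1 + ((n + 1) % 2 : ℕ)) +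
              (posS (n + 1) n l : ℤ) + ((n + 1 : ℕ) : ℤ) * b := by exact_mod_cast h1
          simp only [Bool.false_eq_true, if_false]
          rw [h1']
          ring
        | true =>
          rw [hsg, cond_true, beq_iff] at h1
          have h1' : ((n + 1 : ℕ) : ℤ) * b + (negS (n + 1) n l : ℤ) =
              ((n + 1 : ℕ) : ℤ) * (1 + ((n + 1) % 2 : ℕ)) + (posS (n + 1) n l : ℤ) := by
            exact_mod_cast h1
          simp only [if_true]
          linarith
      refine ⟨⟨hval, r⟩, fun k hk1 hk2 => ?_⟩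
      rcases Nat.lt_or_ge k (n + 1) with hlt | hge
      · exact hf k hk1 (by omega)
      · have hk : k = n + 1 := by omega
        subst hk
        have habs : (a (n + 1)).natAbs = b := by
          rw [hval]
          unfold val
          split_ifs <;> simp
        refine ⟨fun hs1 => ?_, fun hs1 => ?_, fun h0 => ?_, ?_, fun h0 h6 => ?_⟩
        · rw [hval, val, if_pos hs1]
          positivity
        · rw [hval, val, if_neg (by rw [hs1]; simp)]
          simp
        · rw [Bool.or_eq_true] at h3
          rcases h3 with h3 | h3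
          · have := Nat.le_of_ble_eq_true h3
            omega
          · have := Nat.le_of_ble_eq_true h3
            intro h7
            rw [h7] at habs
            simp at habs
            omega
        · rw [habs]
          exact Nat.le_of_ble_eq_true h2
        · rw [habs]
          rw [Bool.or_eq_true, Bool.or_eq_true] at h4
          rcases h4 with (h4 | h4) | h4
          · have := Nat.le_of_ble_eq_true h4
            omega
          · have := Nat.le_of_ble_eq_true h4
            omega
          · exact Nat.le_of_ble_eq_true h4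

end Pool.Agent.Q209.PS
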