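import Mathlib

/-!
# Power product expansion of the partition function: the logarithmic derivative
-/

namespace Pool.Agent.Q209.PS

open Finset PowerSeries

/-- `N 1, N 2, ...` is the sequence of exponents of the power product expansion:
`∑ p(m) x^m = ∏_{k ≥ 1} (1 + N k x^k)`, that is, for every `m` and every `M ≥ m` the coefficient
of `x^m` in `∏_{k ≤ M} (1 + N k x^k)` is the number of partitions of `m`. -/
def IsExpansion (N : ℕ → ℤ) : Prop :=
  ∀ M m : ℕ, m ≤ M →
    coeff m (∏ k ∈ Icc 1 M, (1 + PowerSeries.C (N k) * (X : PowerSeries ℤ) ^ k)) =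
      (Fintype.card m.Partition : ℤ)

/-! ### Euler's product -/

/-- The partitions of `n` with parts at most `L`. -/
def resP (L n : ℕ) : Finset n.Partition :=
  univ.filter fun p : n.Partition => ∀ x ∈ p.parts, x ≤ L

theorem card_with_part (L n : ℕ) :
    ((resP (L + 1) n).filter fun p => L + 1 ∈ p.parts).card =
      if L + 1 ≤ n then (resP (L + 1) (n - (L + 1))).card else 0 := by
  split_ifs with hn
  · symm
    refine Finset.card_bij (fun q _ => (⟨(L + 1) ::ₘ q.parts, ?_, ?_⟩ : n.Partition)) ?_ ?_ ?_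
    · intro i hi
      rcases Multiset.mem_cons.1 hi with h | h
      · omega
      · exact q.parts_pos h
    · rw [Multiset.sum_cons, q.parts_sum]
      omega
    · intro q hq
      unfold resP at hq ⊢
      rw [mem_filter] at hq
      rw [mem_filter, mem_filter]
      refine ⟨⟨mem_univ _, ?_⟩, Multiset.mem_cons_self _ _⟩
      intro x hx
      rcases Multiset.mem_cons.1 hx with h | h
      · omega
      · exact hq.2 x h
    · intro q _ q' _ h
      have h1 := congrArg Nat.Partition.parts h
      simp only at h1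
      exact Nat.Partition.ext ((Multiset.cons_inj_right _).1 h1)
    · intro p hp
      unfold resP at hp
      rw [mem_filter, mem_filter] at hp
      obtain ⟨⟨-, hp1⟩, hp2⟩ := hp
      obtain ⟨t, ht⟩ := Multiset.exists_cons_of_mem hp2
      refine ⟨⟨t, ?_, ?_⟩, ?_, ?_⟩
      · intro i hi
        exact p.parts_pos (by rw [ht]; exact Multiset.mem_cons_of_mem hi)
      · have h1 := p.parts_sum
        rw [ht, Multiset.sum_cons] at h1
        omega
      · unfold resP
        rw [mem_filter]
        exact ⟨mem_univ _, fun x hx => hp1 x (by rw [ht]; exact Multiset.mem_cons_of_mem hx)⟩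
      · refine Nat.Partition.ext ?_
        exact ht.symm
  · rw [Finset.card_eq_zero, Finset.filter_eq_empty_iff]
    intro p _ hp
    have := Nat.Partition.le_of_mem_parts hp
    omega

/-- The generating function of the partitions with parts at most `L`. -/
noncomputable def R (L : ℕ) : PowerSeries ℤ := PowerSeries.mk fun n => ((resP L n).card : ℤ)

theorem R_zero : R 0 = 1 := by
  ext n
  rw [R, coeff_mk, coeff_one]
  split_ifs with h
  · subst h
    have : resP 0 0 = univ := by
      unfold resP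
      rw [Finset.filter_eq_self]
      intro p _ x hx
      rw [Nat.Partition.partition_zero_parts] at hx
      simp at hx
    rw [this]
    simp
  · have : resP 0 n = ∅ := by
      unfold resP
      rw [Finset.filter_eq_empty_iff]
      intro p _ hp
      have h0 : p.parts = 0 := by
        rw [Multiset.eq_zero_iff_forall_notMem]
        intro x hx
        have h1 := hp x hx
        have h2 := p.parts_pos hx
        omega
      have h3 := p.parts_sum
      rw [h0, Multiset.sum_zero] at h3
      omega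
    rw [this]
    simp

theorem R_succ (L : ℕ) : R (L + 1) * (1 + PowerSeries.C (-1) * X ^ (L + 1)) = R L := by
  have e : (1 + PowerSeries.C (-1) * X ^ (L + 1) : PowerSeries ℤ) = 1 - X ^ (L + 1) := by
    rw [map_neg, map_one]
    ring
  rw [e]
  ext n
  rw [mul_sub, mul_one, map_sub, coeff_mul_X_pow']
  have h1 := card_with_part L n
  have h2 := Finset.card_filter_add_card_filter_not (s := resP (L + 1) n)
    (fun p => L + 1 ∈ p.parts)
  have h3 : (resP (L + 1) n).filter (fun p => ¬ L + 1 ∈ p.parts) = resP L n := by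
    ext p
    unfold resP
    simp only [mem_filter, mem_univ, true_and]
    constructor
    · rintro ⟨h4, h5⟩ x hx
      have h6 := h4 x hx
      have h8 : x ≠ L + 1 := by
        rintro rfl
        exact h5 hx
      omega
    · intro h4
      refine ⟨fun x hx => by have := h4 x hx; omega, fun h5 => ?_⟩
      have := h4 _ h5
      omega
  rw [h3, h1] at h2
  simp only [R, coeff_mk]
  rw [← h2]
  split_ifs <;> push_cast <;> ring

/-- `∏_{k ≤ M} (1 - x^k)`, in the form of the other products. -/
noncomputable def Gp (M : ℕ) : PowerSeries ℤ :=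
  ∏ k ∈ Icc 1 M, (1 + PowerSeries.C (-1) * (X : PowerSeries ℤ) ^ k)

theorem R_mul_Gp (M : ℕ) : R M * Gp M = 1 := by
  induction M with
  | zero => rw [R_zero]; simp [Gp]
  | succ M ih =>
    unfold Gp at ih ⊢
    rw [Finset.prod_Icc_succ_top (by omega), mul_comm (∏ k ∈ Icc 1 M, _), ← mul_assoc, R_succ, ih]

theorem coeff_R {M m : ℕ} (h : m ≤ M) : coeff m (R M) = (Fintype.card m.Partition : ℤ) := by
  rw [R, coeff_mk]
  have : resP M m = univ := by
    unfold resP
    rw [Finset.filter_eq_self]
    intro p _ x hx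
    have := Nat.Partition.le_of_mem_parts hx
    omega
  rw [this, Finset.card_univ]

/-! ### Logarithmic derivatives -/

/-- `x d/dx log (1 + c x^k) = ∑_{j ≥ 1} (-1)^{j-1} k c^j x^{kj}`. -/
noncomputable def Ls (c : ℤ) (k : ℕ) : PowerSeries ℤ :=
  PowerSeries.mk fun m => if k ∣ m ∧ m ≠ 0 then (-1) ^ (m / k - 1) * (k : ℤ) * c ^ (m / k) else 0

theorem Ls_mul (c : ℤ) {k : ℕ} (hk : 1 ≤ k) :
    (1 + PowerSeries.C c * X ^ k) * Ls c k = PowerSeries.C ((k : ℤ) * c) * X ^ k := by
  ext m
  rw [add_mul, one_mul, map_add, mul_assoc, coeff_C_mul, coeff_C_mul, coeff_X_pow_mul', coeff_X_pow]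
  by_cases hm : k ≤ m
  · rw [if_pos hm]
    simp only [Ls, coeff_mk]
    have hdiv : k ∣ m - k ↔ k ∣ m := by
      constructor
      · intro h
        have := (Nat.dvd_add_right h).2 (dvd_refl k)
        rwa [Nat.sub_add_cancel hm] at this
      · intro h
        exact Nat.dvd_sub h (dvd_refl k)
    simp only [hdiv]
    by_cases hd : k ∣ m
    · obtain ⟨j, rfl⟩ := hd
      have hj : j ≠ 0 := by
        rintro rfl
        omega
      obtain ⟨i, rfl⟩ : ∃ i, j = i + 1 := ⟨j - 1, by omega⟩
      have e1 : k * (i + 1) / k = i + 1 := Nat.mul_div_cancel_left _ hk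
      have e2 : k * (i + 1) - k = k * i := by rw [mul_add, mul_one, Nat.add_sub_cancel]
      have e3 : k * i / k = i := Nat.mul_div_cancel_left _ hk
      rw [e1, e2, e3]
      have h0 : k * (i + 1) ≠ 0 := by positivity
      rw [if_pos ⟨dvd_mul_right _ _, h0⟩]
      cases i with
      | zero => simp
      | succ i =>
        have h1 : k * (i + 1) ≠ 0 := by positivity
        have h2 : ¬ (k * (i + 1 + 1) = k) := by
          intro h
          have : k * (i + 1 + 1) = k * 1 := by rw [h, mul_one]
          have := Nat.eq_of_mul_eq_mul_left hk this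
          omega
        rw [if_pos ⟨dvd_mul_right _ _, h1⟩, if_neg h2, Nat.add_sub_cancel, Nat.add_sub_cancel]
        rw [pow_succ (-1 : ℤ), pow_succ c (i + 1)]
        ring
    · have h2 : m ≠ k := by
        rintro rfl
        exact hd (dvd_refl _)
      rw [if_neg (fun h => hd h.1), if_neg (fun h => hd h.1), if_neg h2]
      simp
  · have h2 : m ≠ k := by omega
    rw [if_neg hm, if_neg h2]
    simp only [Ls, coeff_mk]
    rw [if_neg]
    · simp
    · rintro ⟨h, h0⟩
      exact hm (Nat.le_of_dvd (Nat.pos_of_ne_zero h0) h)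

theorem deriv_factor (c : ℤ) {k : ℕ} (hk : 1 ≤ k) :
    X * derivative ℤ (1 + PowerSeries.C c * (X : PowerSeries ℤ) ^ k) =
      (1 + PowerSeries.C c * X ^ k) * Ls c k := by
  rw [Ls_mul c hk]
  ext m
  cases m with
  | zero =>
    rw [coeff_zero_X_mul, coeff_C_mul, coeff_X_pow, if_neg (by omega), mul_zero]
  | succ m =>
    rw [coeff_succ_X_mul, coeff_derivative, map_add, coeff_C_mul, coeff_C_mul, coeff_X_pow,
      coeff_one, if_neg (by omega), zero_add]
    split_ifs with h
    · rw [← h]
      push_cast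
      ring
    · simp

theorem deriv_prod (c : ℕ → ℤ) (M : ℕ) :
    X * derivative ℤ (∏ k ∈ Icc 1 M, (1 + PowerSeries.C (c k) * (X : PowerSeries ℤ) ^ k)) =
      (∏ k ∈ Icc 1 M, (1 + PowerSeries.C (c k) * (X : PowerSeries ℤ) ^ k)) *
        ∑ k ∈ Icc 1 M, Ls (c k) k := by
  induction M with
  | zero => simp
  | succ M ih =>
    rw [Finset.prod_Icc_succ_top (by omega), Finset.sum_Icc_succ_top (by omega),
      Derivation.leibniz, smul_eq_mul, smul_eq_mul]
    have h := deriv_factor (c (M + 1)) (k := M + 1) (by omega)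
    linear_combination (∏ k ∈ Icc 1 M, (1 + PowerSeries.C (c k) * (X : PowerSeries ℤ) ^ k)) * h +
      (1 + PowerSeries.C (c (M + 1)) * X ^ (M + 1)) * ih

/-- The divisor recursion. -/
theorem IsExpansion.rec {N : ℕ → ℤ} (h : IsExpansion N) (m : ℕ) (hm : 1 ≤ m) :
    ∑ k ∈ m.divisors, (-1) ^ (m / k - 1) * (k : ℤ) * N k ^ (m / k) = ∑ k ∈ m.divisors, (k : ℤ) := by
  set Fp := ∏ k ∈ Icc 1 m, (1 + PowerSeries.C (N k) * (X : PowerSeries ℤ) ^ k) with hF
  set T := ∑ k ∈ Icc 1 m, Ls (N k) k + ∑ k ∈ Icc 1 m, Ls (-1) k with hT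
  have h1 : X * derivative ℤ (Fp * Gp m) = Fp * Gp m * T := by
    have a1 := deriv_prod N m
    have a2 := deriv_prod (fun _ => -1) m
    have e2 : Gp m = ∏ k ∈ Icc 1 m, (1 + PowerSeries.C ((fun _ => -1 : ℕ → ℤ) k) *
      (X : PowerSeries ℤ) ^ k) := rfl
    rw [← e2] at a2
    rw [← hF] at a1
    rw [Derivation.leibniz, smul_eq_mul, smul_eq_mul, hT]
    linear_combination Gp m * a1 + Fp * a2
  have h2 : ∀ i ≤ m, coeff i (Fp * Gp m) = if i = 0 then 1 else 0 := by
    intro i hi
    have h3 : coeff i (R m * Gp m) = coeff i (Fp * Gp m) := by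
      rw [coeff_mul, coeff_mul]
      refine Finset.sum_congr rfl fun x hx => ?_
      rw [HasAntidiagonal.mem_antidiagonal] at hx
      rw [coeff_R (by omega), h m x.1 (by omega)]
    rw [← h3, R_mul_Gp, coeff_one]
  have h3 : coeff m (Fp * Gp m * T) = coeff m T := by
    rw [coeff_mul, Finset.sum_eq_single (0, m)]
    · rw [h2 0 (by omega), if_pos rfl, one_mul]
    · intro x hx hne
      rw [HasAntidiagonal.mem_antidiagonal] at hx
      have hx0 : x.1 ≠ 0 := by
        intro h0
        exact hne (Prod.ext h0 (by simpa [h0] using hx))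
      rw [h2 x.1 (by omega), if_neg hx0, zero_mul]
    · intro hn
      exact absurd (HasAntidiagonal.mem_antidiagonal.2 (by simp)) hn
  have h4 : coeff m T = 0 := by
    rw [← h3, ← h1]
    obtain ⟨i, rfl⟩ : ∃ i, m = i + 1 := ⟨m - 1, by omega⟩
    rw [coeff_succ_X_mul, coeff_derivative, h2 (i + 1) le_rfl, if_neg (by omega), zero_mul]
  have h5 : ∀ c : ℕ → ℤ, coeff m (∑ k ∈ Icc 1 m, Ls (c k) k) =
      ∑ k ∈ m.divisors, (-1) ^ (m / k - 1) * (k : ℤ) * c k ^ (m / k) := by
    intro c
    rw [map_sum]
    have h6 : m.divisors = (Icc 1 m).filter (fun k => k ∣ m) := by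
      ext k
      rw [Nat.mem_divisors, mem_filter, mem_Icc]
      constructor
      · rintro ⟨h7, h8⟩
        exact ⟨⟨Nat.pos_of_dvd_of_pos h7 hm, Nat.le_of_dvd hm h7⟩, h7⟩
      · rintro ⟨h7, h8⟩
        exact ⟨h8, by omega⟩
    rw [h6, Finset.sum_filter]
    refine Finset.sum_congr rfl fun k _ => ?_
    simp only [Ls, coeff_mk]
    have hm0 : m ≠ 0 := by omega
    by_cases hk : k ∣ m
    · rw [if_pos ⟨hk, hm0⟩, if_pos hk]
    · rw [if_neg (fun h => hk h.1), if_neg hk]
  rw [hT, map_add, h5 N, h5 (fun _ => -1)] at h4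
  have h6 : ∑ k ∈ m.divisors, (-1) ^ (m / k - 1) * (k : ℤ) * (-1) ^ (m / k) =
      -∑ k ∈ m.divisors, (k : ℤ) := by
    rw [← Finset.sum_neg_distrib]
    refine Finset.sum_congr rfl fun k hk => ?_
    have hk1 := Nat.divisor_le hk
    have hk0 := Nat.pos_of_mem_divisors hk
    have hq : 1 ≤ m / k := Nat.div_pos hk1 hk0
    obtain ⟨i, hi⟩ : ∃ i, m / k = i + 1 := ⟨m / k - 1, by omega⟩
    rw [hi, Nat.add_sub_cancel, pow_succ]
    have : ((-1 : ℤ) ^ i) * (-1) ^ i = 1 := by
      rw [← mul_pow]
      norm_num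
    linear_combination (-(k : ℤ)) * this
  rw [h6] at h4
  linarith

end Pool.Agent.Q209.PS
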